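import Pool.Agent.Q120.FX.Stm1

/-!
# Project FX (helper120), job X5: the lower bound for the mean square of `M(u,χ)`
-/

set_option autoImplicit false

namespace Pool.Agent.Q150.FX

open MeasureTheory Filter Topology Set
open Pool.Agent.Q120.FX

variable {q : ℕ} (χ : DirichletCharacter ℂ q)

theorem Mc_norm_le (x : ℝ) (hx : 0 ≤ x) : ‖Mc χ x‖ ≤ x := by
  unfold Mc
  calc ‖∑ n ∈ Finset.Icc 1 ⌊x⌋₊, ((ArithmeticFunction.moebius n : ℤ) : ℂ) * χ (n : ZMod q)‖
      ≤ ∑ n ∈ Finset.Icc 1 ⌊x⌋₊,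
          ‖((ArithmeticFunction.moebius n : ℤ) : ℂ) * χ (n : ZMod q)‖ := norm_sum_le _ _
    _ ≤ ∑ n ∈ Finset.Icc 1 ⌊x⌋₊, (1 : ℝ) := Finset.sum_le_sum fun n _ => by
        rw [norm_mul]
        have h1 : ‖((ArithmeticFunction.moebius n : ℤ) : ℂ)‖ ≤ 1 := by
          rw [Complex.norm_intCast]
          exact_mod_cast ArithmeticFunction.abs_moebius_le_one
        have h2 : ‖χ (n : ZMod q)‖ ≤ 1 := DirichletCharacter.norm_le_one χ _
        exact mul_le_one₀ h1 (norm_nonneg _) h2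
    _ = ⌊x⌋₊ := by simp
    _ ≤ x := Nat.floor_le hx

theorem Mc_meas : Measurable (Mc χ) := by
  have h1 : Mc χ = (fun N : ℕ => ∑ n ∈ Finset.Icc 1 N,
      ((ArithmeticFunction.moebius n : ℤ) : ℂ) * χ (n : ZMod q)) ∘ (fun x : ℝ => ⌊x⌋₊) := rfl
  rw [h1]
  exact (measurable_from_nat).comp Nat.measurable_floor

/-- `|M(u)|/u` -/
noncomputable def ff (u : ℝ) : ℝ := ‖Mc χ u‖ / u

theorem ff_meas : Measurable (ff χ) := (Mc_meas χ).norm.div measurable_id

theorem ff_nonneg {u : ℝ} (hu : 0 ≤ u) : 0 ≤ ff χ u := div_nonneg (norm_nonneg _) hu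

theorem ff_le {u : ℝ} (hu : 0 < u) : ff χ u ≤ 1 := by
  unfold ff
  rw [div_le_one hu]
  exact Mc_norm_le χ u hu.le

theorem bdd_int {h : ℝ → ℝ} (hm : Measurable h) {C x : ℝ} (hx : 1 ≤ x)
    (hb : ∀ u ∈ Ioc 1 x, |h u| ≤ C) : IntervalIntegrable h volume 1 x := by
  rw [intervalIntegrable_iff_integrableOn_Ioc_of_le hx]
  refine Measure.integrableOn_of_bounded (M := C) (by simp) hm.aestronglyMeasurable ?_
  rw [ae_restrict_iff' measurableSet_Ioc]
  exact Filter.Eventually.of_forall fun u hu => hb u hu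

theorem ff_int {x : ℝ} (hx : 1 ≤ x) : IntervalIntegrable (ff χ) volume 1 x := by
  refine bdd_int (ff_meas χ) (C := 1) hx fun u hu => ?_
  rw [abs_of_nonneg (ff_nonneg χ (by linarith [hu.1]))]
  exact ff_le χ (by linarith [hu.1])

theorem ff2_int {x : ℝ} (hx : 1 ≤ x) : IntervalIntegrable (fun u => ff χ u ^ 2) volume 1 x := by
  refine bdd_int ((ff_meas χ).pow_const 2) (C := 1) hx fun u hu => ?_
  have h1 := ff_nonneg χ (show (0 : ℝ) ≤ u by linarith [hu.1])
  have h2 := ff_le χ (show (0 : ℝ) < u by linarith [hu.1])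
  rw [abs_of_nonneg (by positivity)]
  nlinarith

/-- `L(x) = ∫_1^x |M(u)|/u du` -/
noncomputable def LL (x : ℝ) : ℝ := ∫ u in (1 : ℝ)..x, ff χ u

theorem LL_nonneg {x : ℝ} (hx : 1 ≤ x) : 0 ≤ LL χ x :=
  intervalIntegral.integral_nonneg hx fun u hu => ff_nonneg χ (by linarith [hu.1])

theorem M2c_eq (x : ℝ) : M2c χ x = ∫ u in (1 : ℝ)..x, ff χ u ^ 2 := rfl

theorem LL_cont {X : ℝ} (hX : 1 ≤ X) : ContinuousOn (LL χ) (Icc 1 X) := by
  have h1 := intervalIntegral.continuousOn_primitive_interval (μ := volume) (f := ff χ)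
    (a := 1) (b := X) (by
      rw [uIcc_of_le hX, integrableOn_Icc_iff_integrableOn_Ioc]
      exact (intervalIntegrable_iff_integrableOn_Ioc_of_le hX).mp (ff_int χ hX))
  rw [uIcc_of_le hX] at h1
  exact h1

theorem Mc_contAt {x : ℝ} (hx : 0 < x) (hn : x ∉ Set.range (fun n : ℕ => (n : ℝ))) :
    ContinuousAt (Mc χ) x := by
  have h1 : (⌊x⌋₊ : ℝ) < x := by
    rcases (Nat.floor_le hx.le).lt_or_eq with h | h
    · exact h
    · exact absurd ⟨⌊x⌋₊, h⟩ hn
  have h2 : x < ⌊x⌋₊ + 1 := Nat.lt_floor_add_one x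
  have h3 : Mc χ =ᶠ[𝓝 x] fun _ => Mc χ x := by
    filter_upwards [Ioo_mem_nhds h1 h2] with y hy
    have h4 : ⌊y⌋₊ = ⌊x⌋₊ := by
      rw [Nat.floor_eq_iff (by
        have : (0 : ℝ) ≤ (⌊x⌋₊ : ℝ) := Nat.cast_nonneg _
        linarith [hy.1])]
      exact ⟨hy.1.le, hy.2⟩
    unfold Mc
    rw [h4]
  exact continuousAt_const.congr h3.symm

theorem LL_deriv {x : ℝ} (hx : 1 ≤ x) (hn : x ∉ Set.range (fun n : ℕ => (n : ℝ))) :
    HasDerivAt (LL χ) (ff χ x) x := by
  have h0 : 0 < x := by linarith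
  refine intervalIntegral.integral_hasDerivAt_right (ff_int χ hx)
    (ff_meas χ).stronglyMeasurable.stronglyMeasurableAtFilter ?_
  exact (Mc_contAt χ h0 hn).norm.div continuousAt_id h0.ne'

/-- Hardy's inequality -/
theorem hardy {X : ℝ} (hX : 1 ≤ X) : ∫ x in (1 : ℝ)..X, (LL χ x / x) ^ 2 ≤ 4 * M2c χ X := by
  have hc1 : ContinuousOn (fun x => LL χ x / x) (Icc 1 X) :=
    (LL_cont χ hX).div continuousOn_id fun x hx => by
      have : (0 : ℝ) < x := by linarith [hx.1]
      exact this.ne'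
  have hc1' : ContinuousOn (fun x => LL χ x / x) (uIcc 1 X) := by
    rwa [uIcc_of_le hX]
  have hi1 : IntervalIntegrable (fun x => (LL χ x / x) ^ 2) volume 1 X :=
    (hc1'.pow 2).intervalIntegrable
  have hi2 : IntervalIntegrable (fun x => LL χ x / x * ff χ x) volume 1 X :=
    (ff_int χ hX).continuousOn_mul hc1'
  have hi3 : IntervalIntegrable (fun x => 2 * (LL χ x / x * ff χ x)) volume 1 X :=
    hi2.const_mul 2
  have hF := integral_eq_of_hasDerivAt_off_countable_of_le
    (fun x => -(LL χ x ^ 2 / x)) (fun x => (LL χ x / x) ^ 2 - 2 * (LL χ x / x * ff χ x)) hX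
    (s := Set.range (fun n : ℕ => (n : ℝ))) (Set.countable_range _)
    (((LL_cont χ hX).pow 2).div continuousOn_id (fun x hx => by
      have : (0 : ℝ) < x := by linarith [hx.1]
      exact this.ne')).neg
    (by
      intro x hx
      have h0 : (0 : ℝ) < x := by linarith [hx.1.1]
      have h1 := LL_deriv χ hx.1.1.le hx.2
      have h2 := ((h1.pow 2).div (hasDerivAt_id x) h0.ne').neg
      refine h2.congr_deriv ?_
      simp only [id, Pi.pow_apply]
      field_simp
      ring)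
    (hi1.sub hi3)
  rw [intervalIntegral.integral_sub hi1 hi3, intervalIntegral.integral_const_mul] at hF
  have h3 : -(LL χ X ^ 2 / X) - -(LL χ 1 ^ 2 / 1) ≤ 0 := by
    have h4 : LL χ 1 = 0 := intervalIntegral.integral_same
    rw [h4]
    have : 0 ≤ LL χ X ^ 2 / X := by positivity
    linarith
  have h5 : ∫ x in (1 : ℝ)..X, 2 * (LL χ x / x * ff χ x) ≤
      ∫ x in (1 : ℝ)..X, ((1 / 2) * (LL χ x / x) ^ 2 + 2 * ff χ x ^ 2) := by
    refine intervalIntegral.integral_mono_on hX hi3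
      ((hi1.const_mul _).add ((ff2_int χ hX).const_mul _)) fun x _ => ?_
    nlinarith [sq_nonneg (LL χ x / x - 2 * ff χ x)]
  rw [intervalIntegral.integral_add (hi1.const_mul _) ((ff2_int χ hX).const_mul _),
    intervalIntegral.integral_const_mul, intervalIntegral.integral_const_mul,
    intervalIntegral.integral_const_mul, ← M2c_eq] at h5
  linarith

/-- Cauchy-Schwarz -/
theorem cs {x : ℝ} (hx : 1 ≤ x) : LL χ x ^ 2 / x ≤ M2c χ x := by
  have h0 : 0 < x := by linarith
  set l : ℝ := LL χ x / x with hl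
  have h1 : 0 ≤ ∫ u in (1 : ℝ)..x, (ff χ u - l) ^ 2 :=
    intervalIntegral.integral_nonneg hx fun u _ => sq_nonneg _
  have h2 : ∫ u in (1 : ℝ)..x, (ff χ u - l) ^ 2 =
      M2c χ x - 2 * l * LL χ x + l ^ 2 * (x - 1) := by
    have h3 : ∀ u, (ff χ u - l) ^ 2 = ff χ u ^ 2 - 2 * l * ff χ u + l ^ 2 := fun u => by ring
    simp only [h3]
    rw [intervalIntegral.integral_add
      ((ff2_int χ hx).sub ((ff_int χ hx).const_mul _)) intervalIntegrable_const,
      intervalIntegral.integral_sub (ff2_int χ hx) ((ff_int χ hx).const_mul _),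
      intervalIntegral.integral_const_mul, intervalIntegral.integral_const, M2c_eq, smul_eq_mul]
    unfold LL
    ring
  rw [h2] at h1
  have h4 : LL χ x ^ 2 / x = 2 * l * LL χ x - l ^ 2 * x := by
    rw [hl]
    field_simp
    ring
  rw [h4]
  nlinarith [sq_nonneg l]

/-- the substitution `y = x / u` -/
theorem subst {x : ℝ} (hx : 1 ≤ x) :
    ∫ y in Ioc (1 : ℝ) x, ‖Mc χ (x / y)‖ / y = LL χ x := by
  have h0 : 0 < x := by linarith
  have himg : (fun y : ℝ => x / y) '' Icc 1 x = Icc 1 x := by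
    ext u
    constructor
    · rintro ⟨y, hy, rfl⟩
      have hy0 : 0 < y := by linarith [hy.1]
      refine ⟨?_, ?_⟩
      · show 1 ≤ x / y
        rw [le_div_iff₀ hy0]
        linarith [hy.2]
      · show x / y ≤ x
        rw [div_le_iff₀ hy0]
        nlinarith [hy.1]
    · intro hu
      have hu0 : 0 < u := by linarith [hu.1]
      refine ⟨x / u, ⟨?_, ?_⟩, ?_⟩
      · rw [le_div_iff₀ hu0]
        linarith [hu.2]
      · rw [div_le_iff₀ hu0]
        nlinarith [hu.1]
      · show x / (x / u) = u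
        field_simp
  have h1 := integral_image_eq_integral_abs_deriv_smul (s := Icc 1 x)
    (f := fun y : ℝ => x / y) (f' := fun y => -(x / y ^ 2)) measurableSet_Icc
    (by
      intro y hy
      have hy0 : 0 < y := by linarith [hy.1]
      have h2 := ((hasDerivAt_const y x).div (hasDerivAt_id y) hy0.ne')
      refine (h2.congr_deriv ?_).hasDerivWithinAt
      simp only [id]
      field_simp
      ring)
    (by
      intro y hy z hz hyz
      have hy0 : 0 < y := by linarith [hy.1]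
      have hz0 : 0 < z := by linarith [hz.1]
      have h2 : x / y = x / z := hyz
      rw [div_eq_div_iff hy0.ne' hz0.ne'] at h2
      exact (mul_left_cancel₀ h0.ne' h2).symm)
    (ff χ)
  rw [himg, integral_Icc_eq_integral_Ioc, integral_Icc_eq_integral_Ioc] at h1
  unfold LL
  rw [intervalIntegral.integral_of_le hx, h1]
  refine setIntegral_congr_fun measurableSet_Ioc fun y hy => ?_
  have hy0 : 0 < y := by linarith [hy.1]
  show ‖Mc χ (x / y)‖ / y = |-(x / y ^ 2)| • ff χ (x / y)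
  rw [abs_neg, abs_of_pos (by positivity), smul_eq_mul]
  unfold ff
  field_simp

theorem g_le {ρ : ℂ} {r : ℕ} {B : ℝ} (hB : ∀ y : ℝ, 1 ≤ y → ‖kk χ ρ r y‖ ≤ B) {x : ℝ}
    (hx : 1 ≤ x)
    (hI : ∫ y in Ioc (1 : ℝ) x, Mc χ (x / y) * kk χ ρ r y / y = Gr ρ r x - 2 * Gr ρ r (x / 2)) :
    ‖Gr ρ r x - 2 * Gr ρ r (x / 2)‖ ≤ B * LL χ x := by
  have h0 : 0 < x := by linarith
  rw [← hI, ← subst χ hx, ← integral_const_mul]
  refine norm_integral_le_of_norm_le ?_ ?_
  · have hm : Measurable (fun y : ℝ => B * (‖Mc χ (x / y)‖ / y)) :=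
      (((Mc_meas χ).comp (measurable_const.div measurable_id)).norm.div
        measurable_id).const_mul B
    refine Measure.integrableOn_of_bounded (M := |B| * x) (by simp) hm.aestronglyMeasurable ?_
    rw [ae_restrict_iff' measurableSet_Ioc]
    refine Filter.Eventually.of_forall fun y hy => ?_
    have hy0 : 0 < y := by linarith [hy.1]
    rw [Real.norm_eq_abs, abs_mul]
    refine mul_le_mul_of_nonneg_left ?_ (abs_nonneg _)
    rw [abs_of_nonneg (by positivity), div_le_iff₀ hy0]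
    refine (Mc_norm_le χ _ (by positivity)).trans ?_
    rw [div_le_iff₀ hy0]
    have h1 : 1 ≤ y * y := by nlinarith [hy.1]
    nlinarith
  · rw [ae_restrict_iff' measurableSet_Ioc]
    refine Filter.Eventually.of_forall fun y hy => ?_
    have hy0 : 0 < y := by linarith [hy.1]
    rw [norm_div, norm_mul, Complex.norm_real, Real.norm_eq_abs, abs_of_pos hy0]
    rw [← mul_div_assoc]
    refine div_le_div_of_nonneg_right ?_ hy0.le
    rw [mul_comm B]
    exact mul_le_mul_of_nonneg_left (hB y hy.1.le) (norm_nonneg _)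

/-- the logarithmic integral -/
theorem logint {x₀ X : ℝ} (h0 : 1 ≤ x₀) (hX : x₀ ≤ X) (r : ℕ) :
    ∫ x in x₀..X, x⁻¹ * Real.log x ^ (2 * r) =
      (Real.log X ^ (2 * r + 1) - Real.log x₀ ^ (2 * r + 1)) / (2 * r + 1) := by
  have hne : ((2 : ℝ) * r + 1) ≠ 0 := by positivity
  rw [intervalIntegral.integral_eq_sub_of_hasDerivAt
    (f := fun x => Real.log x ^ (2 * r + 1) / (2 * r + 1))]
  · ring
  · intro x hx
    rw [uIcc_of_le hX] at hx
    have hx0 : 0 < x := by linarith [hx.1]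
    have h1 := ((Real.hasDerivAt_log hx0.ne').pow (2 * r + 1)).div_const (2 * (r : ℝ) + 1)
    refine h1.congr_deriv ?_
    rw [Nat.add_sub_cancel]
    push_cast
    field_simp
  · apply ContinuousOn.intervalIntegrable
    rw [uIcc_of_le hX]
    have hpos : ∀ x ∈ Icc x₀ X, x ≠ 0 := fun x hx => by
      have : 0 < x := by linarith [hx.1]
      exact this.ne'
    exact (continuousOn_id.inv₀ hpos).mul
      ((Real.continuousOn_log.mono fun x hx => by simpa using hpos x hx).pow _)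

theorem t_X5 (h2 : J_X2) (h3 : J_X3) (h4 : J_X4) : J_X5 := by
  intro q _ χ ρ r hρ hρ1 hord
  have hρ0 : 0 < ρ.re := by linarith
  obtain ⟨B₀, hB₀⟩ := h2 q χ ρ r hρ0 hρ1 hord
  obtain ⟨c, hc, hev⟩ := h4 ρ r hρ0 hρ1
  set B : ℝ := max B₀ 1 with hBdef
  have hB1 : 1 ≤ B := le_max_right _ _
  have hB0 : 0 < B := by linarith
  have hB : ∀ y : ℝ, 1 ≤ y → ‖kk χ ρ r y‖ ≤ B := fun y hy => (hB₀ y hy).trans (le_max_left _ _)
  have hlow : ∀ᶠ x : ℝ in atTop, (c / B) * (x ^ ρ.re * Real.log x ^ r) ≤ LL χ x := by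
    filter_upwards [hev, eventually_ge_atTop 1] with x hx hx1
    have h5 := hx.trans (g_le χ hB hx1 (h3 q χ ρ r hρ0 x hx1).2)
    rw [div_mul_eq_mul_div, div_le_iff₀ hB0]
    linarith
  -- the pointwise lower bound
  have hsq : ∀ x : ℝ, 1 ≤ x → (c / B) * (x ^ ρ.re * Real.log x ^ r) ≤ LL χ x →
      (c / B) ^ 2 * (x ^ (2 * ρ.re) * Real.log x ^ (2 * r)) ≤ LL χ x ^ 2 := by
    intro x hx1 hx
    have hx0 : 0 < x := by linarith
    have hl := Real.log_nonneg hx1
    have h5 : 0 ≤ (c / B) * (x ^ ρ.re * Real.log x ^ r) := by positivity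
    have h6 := pow_le_pow_left₀ h5 hx 2
    refine le_trans (le_of_eq ?_) h6
    rw [mul_pow, mul_pow, ← pow_mul, mul_comm r 2, ← Real.rpow_natCast (x ^ ρ.re) 2,
      ← Real.rpow_mul hx0.le]
    push_cast
    rw [mul_comm ρ.re 2]
  obtain ⟨x₁, hx₁⟩ := eventually_atTop.mp hlow
  set x₀ : ℝ := max x₁ 1 with hx₀def
  have hx₀ : 1 ≤ x₀ := le_max_right _ _
  have hx₀' : ∀ x, x₀ ≤ x → (c / B) * (x ^ ρ.re * Real.log x ^ r) ≤ LL χ x := fun x hx =>
    hx₁ x ((le_max_left _ _).trans hx)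
  set K : ℝ := (c / B) ^ 2 / (4 * (2 * r + 1)) with hK
  have hKpos : 0 < K := by positivity
  refine ⟨K / 2, by positivity, ?_⟩
  have hlogbig : ∀ᶠ X : ℝ in atTop,
      Real.log x₀ ^ (2 * r + 1) ≤ 1 / 2 * Real.log X ^ (2 * r + 1) := by
    have h5 : Tendsto (fun X : ℝ => Real.log X ^ (2 * r + 1)) atTop atTop :=
      (tendsto_pow_atTop (by omega)).comp Real.tendsto_log_atTop
    filter_upwards [h5.eventually_ge_atTop (2 * Real.log x₀ ^ (2 * r + 1))] with X hX
    linarith
  filter_upwards [hlogbig, eventually_ge_atTop x₀] with X hXl hX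
  have hX1 : 1 ≤ X := hx₀.trans hX
  have hX0 : 0 < X := by linarith
  constructor
  · -- the first bound
    have hcont : ContinuousOn (fun x => (LL χ x / x) ^ 2) (Icc 1 X) :=
      ((LL_cont χ hX1).div continuousOn_id fun x hx => by
        have : (0 : ℝ) < x := by linarith [hx.1]
        exact this.ne').pow 2
    have hi1 : IntervalIntegrable (fun x => (LL χ x / x) ^ 2) volume 1 x₀ := by
      apply ContinuousOn.intervalIntegrable
      rw [uIcc_of_le hx₀]
      exact hcont.mono (Icc_subset_Icc le_rfl hX)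
    have hi2 : IntervalIntegrable (fun x => (LL χ x / x) ^ 2) volume x₀ X := by
      apply ContinuousOn.intervalIntegrable
      rw [uIcc_of_le hX]
      exact hcont.mono (Icc_subset_Icc hx₀ le_rfl)
    have hsplit := intervalIntegral.integral_add_adjacent_intervals hi1 hi2
    have hpos1 : 0 ≤ ∫ x in (1 : ℝ)..x₀, (LL χ x / x) ^ 2 :=
      intervalIntegral.integral_nonneg hx₀ fun x _ => sq_nonneg _
    have hi3 : IntervalIntegrable (fun x => (c / B) ^ 2 * (x⁻¹ * Real.log x ^ (2 * r)))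
        volume x₀ X := by
      apply ContinuousOn.intervalIntegrable
      rw [uIcc_of_le hX]
      have hpos : ∀ x ∈ Icc x₀ X, x ≠ 0 := fun x hx => by
        have : 0 < x := by linarith [hx.1]
        exact this.ne'
      exact continuousOn_const.mul ((continuousOn_id.inv₀ hpos).mul
        ((Real.continuousOn_log.mono fun x hx => by simpa using hpos x hx).pow _))
    have hmono : ∫ x in x₀..X, (c / B) ^ 2 * (x⁻¹ * Real.log x ^ (2 * r)) ≤
        ∫ x in x₀..X, (LL χ x / x) ^ 2 := by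
      refine intervalIntegral.integral_mono_on hX hi3 hi2 fun x hx => ?_
      have hx1 : 1 ≤ x := hx₀.trans hx.1
      have hx0 : 0 < x := by linarith
      have h5 := hsq x hx1 (hx₀' x hx.1)
      have h6 : x ^ (1 : ℝ) ≤ x ^ (2 * ρ.re) :=
        Real.rpow_le_rpow_of_exponent_le hx1 (by linarith)
      rw [Real.rpow_one] at h6
      have hlp : 0 ≤ Real.log x ^ (2 * r) := pow_nonneg (Real.log_nonneg hx1) _
      rw [div_pow (LL χ x) x 2, le_div_iff₀ (by positivity)]
      calc (c / B) ^ 2 * (x⁻¹ * Real.log x ^ (2 * r)) * x ^ 2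
          = (c / B) ^ 2 * (x * Real.log x ^ (2 * r)) := by field_simp
        _ ≤ (c / B) ^ 2 * (x ^ (2 * ρ.re) * Real.log x ^ (2 * r)) := by gcongr
        _ ≤ LL χ x ^ 2 := h5
    rw [intervalIntegral.integral_const_mul, logint hx₀ hX r] at hmono
    have hH := hardy χ hX1
    have h7 : (c / B) ^ 2 * ((Real.log X ^ (2 * r + 1) - Real.log x₀ ^ (2 * r + 1)) /
        (2 * r + 1)) ≤ 4 * M2c χ X := by linarith
    have h8 : K * (1 / 2 * Real.log X ^ (2 * r + 1)) ≤ M2c χ X := by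
      have h9 : K * (1 / 2 * Real.log X ^ (2 * r + 1)) ≤
          K * (Real.log X ^ (2 * r + 1) - Real.log x₀ ^ (2 * r + 1)) :=
        mul_le_mul_of_nonneg_left (by linarith) hKpos.le
      have h10 : K * (Real.log X ^ (2 * r + 1) - Real.log x₀ ^ (2 * r + 1)) =
          (c / B) ^ 2 * ((Real.log X ^ (2 * r + 1) - Real.log x₀ ^ (2 * r + 1)) /
            (2 * r + 1)) / 4 := by
        rw [hK]
        field_simp
      rw [h10] at h9
      linarith
    linarith
  · -- the second bound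
    have h5 := hsq X hX1 (hx₀' X hX)
    have h6 := cs χ hX1
    have hlp : 0 ≤ Real.log X ^ (2 * r) := pow_nonneg (Real.log_nonneg hX1) _
    have h7 : X ^ (2 * ρ.re - 1) = X ^ (2 * ρ.re) / X := by
      rw [Real.rpow_sub hX0, Real.rpow_one]
    have h8 : K / 2 ≤ (c / B) ^ 2 := by
      rw [hK, div_div, div_le_iff₀ (by positivity)]
      have h9 : 0 ≤ (c / B) ^ 2 := by positivity
      have h10 : (1 : ℝ) ≤ 4 * (2 * r + 1) * 2 := by
        have : (0 : ℝ) ≤ r := Nat.cast_nonneg r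
        linarith
      nlinarith
    have h11 : 0 ≤ X ^ (2 * ρ.re) * Real.log X ^ (2 * r) := by positivity
    calc K / 2 * (X ^ (2 * ρ.re - 1) * Real.log X ^ (2 * r))
        = K / 2 * (X ^ (2 * ρ.re) * Real.log X ^ (2 * r)) / X := by
          rw [h7]
          ring
      _ ≤ (c / B) ^ 2 * (X ^ (2 * ρ.re) * Real.log X ^ (2 * r)) / X := by
          gcongr
      _ ≤ LL χ X ^ 2 / X := by gcongr
      _ ≤ M2c χ X := h6

end Pool.Agent.Q150.FX
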